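import Mathlib
import Pool.Agent.R233.JI.Final
import Pool.Agent.R233.JI.Lam
import Pool.Agent.R233.JI.Ex
import Pool.Agent.R233.JI.F12
import Pool.Agent.R233.JI.F3
import Pool.Agent.R233.JI.F4
import Pool.Agent.R233.JI.CoreP
import Pool.Agent.R233.JI.Ren
import Pool.Agent.R233.JI.Spkx
import Pool.Agent.R233.JI.Exj
import Pool.Agent.R233.JI.S1
import Pool.Agent.R233.JI.S2A
import Pool.Agent.R233.JI.S2C
import Pool.Agent.R233.JI.S2D
import Pool.Agent.R233.JI.S2Z
import Pool.Agent.R233.JI.C1
import Pool.Agent.R233.JI.C2
import Pool.Agent.R233.JI.Sep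
import Pool.Agent.R233.JI.Rigz

set_option autoImplicit false

/-!
# Jamesifications with trivial isometry group

Every Banach space with a seminormalised unconditional basis has an equivalent norm for which the
Jamesification of the same basis has only the isometries `Id` and `-Id`.
-/

namespace Pool.Agent.Results.MP_8db9c5_an.TrivialRenorming

open Pool.Agent.Results.MP_8db9c5_an.NontrivialIsometry
open Pool.Agent.Results.MP_8db9c5_an.EveryFiniteGroup
open Pool.Agent.R233.JI

/-- For every real Banach space `X` with an unconditional Schauder basis `b` with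
`0 < c ≤ ‖b i‖ ≤ K` there is a Banach space `X'` with an isomorphism `Φ` from `X` onto `X'` (that
is, an equivalent norm on `X`), reflexive if `X` is reflexive, such that the Jamesification of the
unconditional basis `Φ (b i)` exists and has only the isometries `Id` and `-Id`. -/
theorem result :
    ∀ (X : Type) [NormedAddCommGroup X] [NormedSpace ℝ X] [CompleteSpace X]
      (b : UnconditionalSchauderBasis ℕ ℝ X),
      (∃ c > 0, ∀ i, c ≤ ‖b i‖) → (∃ K, ∀ i, ‖b i‖ ≤ K) →
      ∃ (X' : Type) (_ : NormedAddCommGroup X') (_ : NormedSpace ℝ X') (_ : CompleteSpace X')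
        (Φ : X ≃L[ℝ] X') (b' : UnconditionalSchauderBasis ℕ ℝ X'),
        (∀ i, b' i = Φ (b i)) ∧
        (Function.Surjective (NormedSpace.inclusionInDoubleDual ℝ X) →
          Function.Surjective (NormedSpace.inclusionInDoubleDual ℝ X')) ∧
        HasJamesification b' ∧ TrivialIsometries b' :=
  final tLAM (tRIGZ tLAM tEX tS1 (tS2Z tLAM tS2A tS2C tS2D) tC1 tC2 tSEP) tREN tSPKX tEXJ
    (tCORE tLAM tF1 tF2 tF3 tF4)

end Pool.Agent.Results.MP_8db9c5_an.TrivialRenorming
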